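import Pool.Agent.W64.DM.Stm

/-!
DM-POS: positive measure of the limsup set.
-/

set_option autoImplicit false

open MeasureTheory Set Filter Pool.Agent.W64.DM

namespace Pool.Agent.W856.DM

theorem measurable_nn : Measurable nn := by
  unfold nn
  have h : Measurable (fun x : ℝ => ((round x : ℤ) : ℝ)) := by
    have e : (fun x : ℝ => ((round x : ℤ) : ℝ)) = fun x : ℝ => ((⌊x + 1 / 2⌋ : ℤ) : ℝ) := by
      funext x
      rw [round_eq]
    rw [e]
    exact (measurable_from_top (f := fun z : ℤ => (z : ℝ))).comp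
      (Int.measurable_floor.comp (measurable_id.add_const _))
  exact (measurable_id.sub h).abs

theorem measurable_EE {d : ℕ} (α : Fin d → ℝ) (R : ℕ) (v : Ix d) : MeasurableSet (EE α R v) := by
  unfold EE
  refine measurableSet_Icc.inter ?_
  have h : Measurable (fun t : ℝ =>
      nn (dotp α (fun i => (v.2.2.1 i : ℤ)) + v.2.2.2 * t)) :=
    measurable_nn.comp (measurable_const.add (measurable_const.mul measurable_id))
  exact measurableSet_lt h measurable_const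

theorem EE_sub {d : ℕ} (α : Fin d → ℝ) (R : ℕ) (v : Ix d) : EE α R v ⊆ Icc 0 1 :=
  fun _ h => h.1

/-- members of the family -/
theorem mem_FV {d R : ℕ} {i0 : Fin d} {v : Ix d} (hv : v ∈ FV d R i0) :
    (∀ i, 3 * R ≤ v.1 i ∧ v.1 i < 4 * R) ∧ (R ≤ v.2.1 ∧ v.2.1 < 2 * R) ∧
      (∀ i, 2 ^ (v.1 i) ≤ v.2.2.1 i ∧ v.2.2.1 i < 2 ^ (v.1 i + 1)) ∧
      (2 ^ v.2.1 ≤ v.2.2.2 ∧ v.2.2.2 < 2 ^ (v.2.1 + 1)) := by
  unfold FV at hv
  rw [Finset.mem_biUnion] at hv
  obtain ⟨a, ha, hv⟩ := hv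
  rw [Finset.mem_biUnion] at hv
  obtain ⟨b, hb, hv⟩ := hv
  rw [Finset.mem_image] at hv
  obtain ⟨q, hq, rfl⟩ := hv
  rw [Finset.mem_filter, Finset.mem_product] at hq
  obtain ⟨⟨h1, h2⟩, _⟩ := hq
  unfold AA at ha
  rw [Fintype.mem_piFinset] at ha
  unfold bx at h1
  rw [Fintype.mem_piFinset] at h1
  refine ⟨fun i => ?_, ?_, fun i => ?_, ?_⟩
  · exact Finset.mem_Ico.mp (ha i)
  · exact Finset.mem_Ico.mp hb
  · exact Finset.mem_Ico.mp (h1 i)
  · exact Finset.mem_Ico.mp h2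

theorem rad_le_psi {d R : ℕ} {i0 : Fin d} {v : Ix d} (hv : v ∈ FV d R i0) :
    rad d R v.1 v.2.1 ≤ psi (fun i => (v.2.2.1 i : ℤ)) (v.2.2.2 : ℤ) := by
  obtain ⟨ha, hb, hm, hn⟩ := mem_FV hv
  obtain ⟨a, b, m, n⟩ := v
  simp only at ha hb hm hn ⊢
  have hHn : max |(((n : ℕ) : ℤ) : ℝ)| 2 ≤ (2 : ℝ) ^ (b + 1) := by
    apply max_le
    · rw [Int.cast_natCast, abs_of_nonneg (Nat.cast_nonneg n)]
      have : n ≤ 2 ^ (b + 1) := hn.2.le
      exact_mod_cast this
    · calc (2 : ℝ) = 2 ^ 1 := (pow_one _).symm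
        _ ≤ 2 ^ (b + 1) := pow_le_pow_right₀ (by norm_num) (by omega)
  have hHm : Hm (fun i => (m i : ℤ)) ≤ (2 : ℝ) ^ (∑ i, (a i + 1)) := by
    unfold Hm
    rw [← Finset.prod_pow_eq_pow_sum]
    apply Finset.prod_le_prod
    · intro i _
      exact le_trans (by norm_num) (le_max_right _ _)
    · intro i _
      apply max_le
      · rw [Int.cast_natCast, abs_of_nonneg (Nat.cast_nonneg _)]
        have : m i ≤ 2 ^ (a i + 1) := (hm i).2.le
        exact_mod_cast this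
      · calc (2 : ℝ) = 2 ^ 1 := (pow_one _).symm
          _ ≤ 2 ^ (a i + 1) := pow_le_pow_right₀ (by norm_num) (by omega)
  have hHm1 : 1 ≤ Hm (fun i => (m i : ℤ)) := by
    unfold Hm
    have : ∀ i ∈ (Finset.univ : Finset (Fin d)), (1 : ℝ) ≤ max |(((m i : ℕ) : ℤ) : ℝ)| 2 := by
      intro i _
      exact le_trans (by norm_num) (le_max_right _ _)
    calc (1 : ℝ) = ∏ i : Fin d, (1 : ℝ) := by simp
      _ ≤ _ := Finset.prod_le_prod (fun _ _ => by norm_num) this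
  set H := Hm (fun i => (m i : ℤ)) * max |(((n : ℕ) : ℤ) : ℝ)| 2 with hH
  have hH2 : 2 ≤ H := by
    have : (2 : ℝ) ≤ max |(((n : ℕ) : ℤ) : ℝ)| 2 := le_max_right _ _
    nlinarith
  have hsum : ∑ i, (a i + 1) = ∑ i, a i + d := by
    rw [Finset.sum_add_distrib]
    simp
  have hHle : H ≤ (2 : ℝ) ^ (∑ i, a i + b + (d + 1)) := by
    have e : ∑ i, a i + b + (d + 1) = (∑ i, a i + d) + (b + 1) := by ring
    rw [e, pow_add, ← hsum]
    apply mul_le_mul hHm hHn
    · exact le_trans (by norm_num) (le_max_right _ _)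
    · positivity
  have hlog0 : 0 < Real.log H := Real.log_pos (by linarith)
  have hlogle : Real.log H ≤ (4 * d + 2 : ℝ) * R := by
    have h1 : Real.log H ≤ Real.log ((2 : ℝ) ^ (∑ i, a i + b + (d + 1))) :=
      Real.log_le_log (by linarith) hHle
    rw [Real.log_pow] at h1
    have h2 : Real.log 2 ≤ 1 := by
      have := Real.log_two_lt_d9
      linarith
    have h3 : ∑ i, a i + b + (d + 1) ≤ (4 * d + 2) * R := by
      have h4 : ∑ i, (a i + 1) ≤ ∑ _i : Fin d, 4 * R := by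
        apply Finset.sum_le_sum
        intro i _
        have := (ha i).2
        omega
      rw [hsum, Finset.sum_const, Finset.card_univ, Fintype.card_fin, smul_eq_mul] at h4
      have h5 : b + 1 ≤ 2 * R := by
        have := hb.2
        omega
      calc ∑ i, a i + b + (d + 1) = (∑ i, a i + d) + (b + 1) := by ring
        _ ≤ d * (4 * R) + 2 * R := by omega
        _ = (4 * d + 2) * R := by ring
    have h6 : ((∑ i, a i + b + (d + 1) : ℕ) : ℝ) ≤ (4 * d + 2 : ℝ) * R := by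
      exact_mod_cast h3
    calc Real.log H ≤ ((∑ i, a i + b + (d + 1) : ℕ) : ℝ) * Real.log 2 := h1
      _ ≤ ((∑ i, a i + b + (d + 1) : ℕ) : ℝ) * 1 :=
          mul_le_mul_of_nonneg_left h2 (Nat.cast_nonneg _)
      _ ≤ (4 * d + 2 : ℝ) * R := by rw [mul_one]; exact h6
  unfold rad psi
  apply one_div_le_one_div_of_le
  · positivity
  · rw [mul_comm (((4 * d + 2 : ℝ) * R) ^ (d + 1))]
    apply mul_le_mul hHle
    · exact pow_le_pow_left₀ hlog0.le hlogle _
    · positivity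
    · positivity

theorem main : S_FIRST → S_SEC → S_CE → S_POS := by
  intro hF hS hCE d α c0 hd hNA
  obtain ⟨c, hc, R0, hF⟩ := hF d α ⟨0, hd⟩
  obtain ⟨C, hC, R1, hS⟩ := hS d α c0 ⟨0, hd⟩ hNA
  set i0 : Fin d := ⟨0, hd⟩ with hi0
  set U : ℕ → Set ℝ := fun R => ⋃ v ∈ FV d R i0, EE α R v with hU
  have hUm : ∀ R, MeasurableSet (U R) := fun R =>
    Finset.measurableSet_biUnion _ (fun v _ => measurable_EE α R v)
  have hUsub : ∀ R, U R ⊆ Icc 0 1 := by
    intro R t ht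
    rw [hU] at ht
    simp only [Set.mem_iUnion] at ht
    obtain ⟨v, _, h⟩ := ht
    exact h.1
  have hvol : ∀ R, max R0 R1 ≤ R → ENNReal.ofReal (c ^ 2 / C) ≤ volume (U R) := by
    intro R hR
    have h1 := hF R (le_trans (le_max_left _ _) hR)
    have h2 := hS R (le_trans (le_max_right _ _) hR)
    have h3 := hCE (Ix d) (FV d R i0) (fun v => EE α R v) (fun v => measurable_EE α R v)
      (fun v => EE_sub α R v)
    have hfin : volume (U R) ≠ ⊤ := by
      refine ne_top_of_le_ne_top ?_ (measure_mono (hUsub R))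
      simp
    rw [ENNReal.ofReal_le_iff_le_toReal hfin, div_le_iff₀ hC]
    have h4 : c ^ 2 ≤ (∑ v ∈ FV d R i0, (volume (EE α R v)).toReal) ^ 2 :=
      pow_le_pow_left₀ hc.le h1.1 2
    have h5 : (volume (U R)).toReal * ∑ v ∈ FV d R i0, ∑ v' ∈ FV d R i0,
        (volume (EE α R v ∩ EE α R v')).toReal ≤ (volume (U R)).toReal * C :=
      mul_le_mul_of_nonneg_left h2 ENNReal.toReal_nonneg
    exact le_trans h4 (le_trans h3 h5)
  -- the decreasing sequence
  set s : ℕ → Set ℝ := fun N => ⋃ R, ⋃ (_ : N ≤ R), U R with hs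
  have hsm : ∀ N, MeasurableSet (s N) := fun N =>
    MeasurableSet.iUnion (fun R => MeasurableSet.iUnion (fun _ => hUm R))
  have hanti : Antitone s := by
    intro N M hNM t ht
    simp only [hs, Set.mem_iUnion] at ht ⊢
    obtain ⟨R, hR, h⟩ := ht
    exact ⟨R, le_trans hNM hR, h⟩
  have hssub : ∀ N, s N ⊆ Icc 0 1 := by
    intro N t ht
    simp only [hs, Set.mem_iUnion] at ht
    obtain ⟨R, _, h⟩ := ht
    exact hUsub R h
  have hfin0 : volume (s 0) ≠ ⊤ := by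
    refine ne_top_of_le_ne_top ?_ (measure_mono (hssub 0))
    simp
  have htend := tendsto_measure_iInter_atTop (μ := volume) (s := s)
    (fun N => (hsm N).nullMeasurableSet) hanti ⟨0, hfin0⟩
  have hge : ENNReal.ofReal (c ^ 2 / C) ≤ volume (⋂ N, s N) := by
    refine ge_of_tendsto htend (Eventually.of_forall ?_)
    intro N
    have : U (max N (max R0 R1)) ⊆ s N := by
      intro t ht
      simp only [hs, Set.mem_iUnion]
      exact ⟨_, le_max_left _ _, ht⟩
    exact le_trans (hvol _ (le_max_right _ _)) (measure_mono this)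
  have hpos : 0 < ENNReal.ofReal (c ^ 2 / C) := by
    rw [ENNReal.ofReal_pos]
    positivity
  refine lt_of_lt_of_le (lt_of_lt_of_le hpos hge) (measure_mono ?_)
  intro t ht
  rw [Set.mem_iInter] at ht
  refine ⟨hssub 0 (ht 0), ?_⟩
  -- infinitely many vectors
  have hub : ∀ N : ℕ, ∃ v : (Fin d → ℤ) × ℤ,
      (1 ≤ v.2 ∧ nn (dotp α v.1 + v.2 * t) < psi v.1 v.2) ∧ (N : ℤ) < v.2 := by
    intro N
    have h := ht N
    simp only [hs, hU, Set.mem_iUnion] at h
    obtain ⟨R, hR, v, hv, hE⟩ := h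
    have hrp := rad_le_psi hv
    obtain ⟨_, hb, _, hn⟩ := mem_FV hv
    have h1 : R < 2 ^ v.2.1 := lt_of_lt_of_le (Nat.lt_two_pow_self) (Nat.pow_le_pow_right (by norm_num) hb.1)
    have h2 : N < v.2.2.2 := lt_of_le_of_lt hR (lt_of_lt_of_le h1 hn.1)
    refine ⟨(fun i => (v.2.2.1 i : ℤ), (v.2.2.2 : ℤ)), ⟨?_, ?_⟩, ?_⟩
    · show (1 : ℤ) ≤ (v.2.2.2 : ℤ)
      exact_mod_cast (Nat.succ_le_of_lt (lt_of_le_of_lt (Nat.zero_le _) h2))
    · show nn (dotp α (fun i => (v.2.2.1 i : ℤ)) + ((v.2.2.2 : ℤ) : ℝ) * t) < _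
      rw [Int.cast_natCast]
      exact lt_of_lt_of_le hE.2 hrp
    · show (N : ℤ) < (v.2.2.2 : ℤ)
      exact_mod_cast h2
  show Set.Infinite {v : (Fin d → ℤ) × ℤ | 1 ≤ v.2 ∧ nn (dotp α v.1 + v.2 * t) < psi v.1 v.2}
  intro hfin
  have hbdd := (hfin.image Prod.snd).bddAbove
  obtain ⟨M, hM⟩ := hbdd
  obtain ⟨v, hv, hNv⟩ := hub M.toNat
  have h1 : v.2 ≤ M := hM ⟨v, hv, rfl⟩
  have h2 : M ≤ (M.toNat : ℤ) := Int.self_le_toNat M
  omega

end Pool.Agent.W856.DM
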